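import Pool.Agent.P.MP_d06606_an.U.Asp

namespace Pool.Agent.Results.MP_d06606_an.AsplundBumps

open Pool.Agent.P.MP_d06606_an.U

universe u

/-- For a real Banach space the following are equivalent: the space is Asplund; it has a Frechet
differentiable bump; it has a Lipschitz bump of class `C¹`; its norm is a uniform limit of
`5`-Lipschitz functions of class `C¹`. -/
theorem result (X : Type u) [NormedAddCommGroup X] [NormedSpace ℝ X] [CompleteSpace X] :
    List.TFAE
      [∀ (U : Set X) (f : X → ℝ), IsOpen U → ConvexOn ℝ U f → ContinuousOn f U →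
          ∃ G : Set X, IsGδ G ∧ G ⊆ U ∧ U ⊆ closure G ∧ ∀ x ∈ G, DifferentiableAt ℝ f x,
        ∃ b : X → ℝ, Differentiable ℝ b ∧ (tsupport b).Nonempty ∧
          Bornology.IsBounded (tsupport b),
        ∃ b : X → ℝ, ContDiff ℝ 1 b ∧ (∃ L, LipschitzWith L b) ∧ (tsupport b).Nonempty ∧
          Bornology.IsBounded (tsupport b),
        ∀ η : ℝ, 0 < η → ∃ G : X → ℝ, ContDiff ℝ 1 G ∧ LipschitzWith 5 G ∧
          ∀ x, |G x - ‖x‖| ≤ η] := by
  tfae_have 1 → 4 := fun H η hη => approx_of_diff (fun f h1 h2 => by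
    obtain ⟨G, -, -, h3, h4⟩ := H Set.univ f isOpen_univ h1 h2.continuousOn
    obtain ⟨x, hx⟩ := closure_nonempty_iff.1 ⟨0, h3 (Set.mem_univ 0)⟩
    exact ⟨x, h4 x hx⟩) hη
  tfae_have 4 → 3 := fun H => by
    obtain ⟨G, h1, h2, h3⟩ := H 1 one_pos
    exact bump_of_approx h1 h2 h3
  tfae_have 3 → 2 := fun ⟨b, h1, _, h2, h3⟩ => ⟨b, h1.differentiable one_ne_zero, h2, h3⟩
  tfae_have 2 → 1 := fun ⟨b, h1, h2, h3⟩ U f hU hc hf => by
    obtain ⟨x₀, h₀⟩ := closure_nonempty_iff.1 h2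
    exact asplund_of_bump h1 h₀ (h3.subset (subset_tsupport b)) hU hc hf
  tfae_finish

end Pool.Agent.Results.MP_d06606_an.AsplundBumps
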